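import Mathlib

/-!
Combinatorial core for `MP_64ff70_lc`: every continuous enumeration degree is graph-cototal.

A point is a set `N` of naturals (atoms).  Index `j` codes a coordinate together with a rational
cut, atom `2 * j` says that the cut is below the coordinate, atom `2 * j + 1` says that it is above.
-/

set_option autoImplicit false

namespace Pool.Agent.MP_64ff70_lc

/-- coordinate of an index -/
def nn (j : ℕ) : ℕ := (Nat.unpair j).1
/-- positive part of numerator -/
def aa (j : ℕ) : ℕ := (Nat.unpair (Nat.unpair (Nat.unpair j).2).1).1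
/-- negative part of numerator -/
def bb (j : ℕ) : ℕ := (Nat.unpair (Nat.unpair (Nat.unpair j).2).1).2
/-- denominator minus one -/
def cc (j : ℕ) : ℕ := (Nat.unpair (Nat.unpair j).2).2

/-- `Lt j j'`: same coordinate and the cut of `j` is smaller than the cut of `j'`. -/
def Lt (j j' : ℕ) : Prop :=
  nn j = nn j' ∧
    aa j * (cc j' + 1) + bb j' * (cc j + 1) < aa j' * (cc j + 1) + bb j * (cc j' + 1)

/-- mediant -/
def med (j j' : ℕ) : ℕ :=
  Nat.pair (nn j) (Nat.pair (Nat.pair (aa j + aa j') (bb j + bb j')) (cc j + cc j' + 1))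

@[simp] lemma nn_med (j j' : ℕ) : nn (med j j') = nn j := by simp [nn, med]
@[simp] lemma aa_med (j j' : ℕ) : aa (med j j') = aa j + aa j' := by simp [aa, med]
@[simp] lemma bb_med (j j' : ℕ) : bb (med j j') = bb j + bb j' := by simp [bb, med]
@[simp] lemma cc_med (j j' : ℕ) : cc (med j j') = cc j + cc j' + 1 := by simp [cc, med]

lemma lt_med_left {j j' : ℕ} (h : Lt j j') : Lt j (med j j') := by
  obtain ⟨h1, h2⟩ := h
  refine ⟨by simp, ?_⟩
  simp only [aa_med, bb_med, cc_med]
  nlinarith [h2]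

lemma lt_med_right {j j' : ℕ} (h : Lt j j') : Lt (med j j') j' := by
  obtain ⟨h1, h2⟩ := h
  refine ⟨by simp [h1], ?_⟩
  simp only [aa_med, bb_med, cc_med]
  nlinarith [h2]

/-- growth of the level function -/
def TT (M : ℕ) : ℕ := Nat.pair (2 * M) (Nat.pair (Nat.pair (2 * M) (2 * M)) (2 * M)) + 1

/-- the levels -/
def KK (n : ℕ) : ℕ := Nat.rec (motive := fun _ => ℕ) 0 (fun _ r => TT r) n

lemma KK_succ (n : ℕ) : KK (n + 1) = TT (KK n) := rfl

lemma lt_TT (M : ℕ) : M < TT M := by
  have := Nat.left_le_pair (2 * M) (Nat.pair (Nat.pair (2 * M) (2 * M)) (2 * M))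
  unfold TT
  omega

lemma KK_strictMono : StrictMono KK := by
  apply strictMono_nat_of_lt_succ
  intro n
  rw [KK_succ]
  exact lt_TT _

lemma le_KK (n : ℕ) : n ≤ KK n := KK_strictMono.le_apply

lemma KK_mono {m n : ℕ} (h : m ≤ n) : KK m ≤ KK n := KK_strictMono.monotone h

lemma pair_le_pair {a a' b b' : ℕ} (h1 : a ≤ a') (h2 : b ≤ b') : Nat.pair a b ≤ Nat.pair a' b' := by
  calc Nat.pair a b ≤ Nat.pair a' b := by
        rcases h1.eq_or_lt with h | h
        · rw [h]
        · exact (Nat.pair_lt_pair_left b h).le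
    _ ≤ Nat.pair a' b' := by
        rcases h2.eq_or_lt with h | h
        · rw [h]
        · exact (Nat.pair_lt_pair_right a' h).le

lemma med_lt_TT {j j' M : ℕ} (h : j < M) (h' : j' < M) : med j j' < TT M := by
  have hu1 : ∀ n : ℕ, (Nat.unpair n).1 ≤ n := Nat.unpair_left_le
  have hu2 : ∀ n : ℕ, (Nat.unpair n).2 ≤ n := Nat.unpair_right_le
  have hn : ∀ i, nn i ≤ i := fun i => hu1 i
  have ha : ∀ i, aa i ≤ i := fun i => (hu1 _).trans ((hu1 _).trans (hu2 _))
  have hb : ∀ i, bb i ≤ i := fun i => (hu2 _).trans ((hu1 _).trans (hu2 _))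
  have hc : ∀ i, cc i ≤ i := fun i => (hu2 _).trans (hu2 _)
  have h1 := hn j
  have h2 := ha j
  have h3 := hb j
  have h4 := hc j
  have h2' := ha j'
  have h3' := hb j'
  have h4' := hc j'
  unfold TT med
  apply Nat.lt_succ_of_le
  apply pair_le_pair (by omega)
  apply pair_le_pair _ (by omega)
  apply pair_le_pair (by omega) (by omega)

/-- `VV S T p q` : positive in `T` -/
def VV (S T : ℕ → Prop) (p q : ℕ) : Prop :=
  ∀ j < KK p, (S (2 * j) → ∃ j' < KK q, Lt j j' ∧ T (2 * j')) ∧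
    (S (2 * j + 1) → ∃ j' < KK q, Lt j' j ∧ T (2 * j' + 1))

/-- `NB S T p q` : positive in `T`; `¬ NB N N p q` is the closed condition. -/
def NB (S T : ℕ → Prop) (p q : ℕ) : Prop :=
  ∃ j < KK p, (S (2 * j) ∧ ∀ j' < KK q, Lt j j' → T (2 * j' + 1)) ∨
    (S (2 * j + 1) ∧ ∀ j' < KK q, Lt j' j → T (2 * j'))

/-- Axioms of a point. -/
structure Pt (N : ℕ → Prop) : Prop where
  P1 : ∀ j j', Lt j j' → N (2 * j) ∨ N (2 * j' + 1)
  P2a : ∀ j, N (2 * j) → ∃ j', Lt j j' ∧ N (2 * j')
  P2b : ∀ j, N (2 * j + 1) → ∃ j', Lt j' j ∧ N (2 * j' + 1)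
  P4 : ∀ j, N (2 * j) → N (2 * j + 1) → False

variable {N : ℕ → Prop}

lemma VV_mono_q {S T : ℕ → Prop} {p q q' : ℕ} (h : q ≤ q') (hv : VV S T p q) : VV S T p q' := by
  intro j hj
  obtain ⟨h1, h2⟩ := hv j hj
  refine ⟨fun hs => ?_, fun hs => ?_⟩
  · obtain ⟨j', hj', hl, ht⟩ := h1 hs
    exact ⟨j', hj'.trans_le (KK_mono h), hl, ht⟩
  · obtain ⟨j', hj', hl, ht⟩ := h2 hs
    exact ⟨j', hj'.trans_le (KK_mono h), hl, ht⟩

lemma VV_mono_T {S T T' : ℕ → Prop} {p q : ℕ} (h : ∀ i, T i → T' i) (hv : VV S T p q) :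
    VV S T' p q := by
  intro j hj
  obtain ⟨h1, h2⟩ := hv j hj
  refine ⟨fun hs => ?_, fun hs => ?_⟩
  · obtain ⟨j', hj', hl, ht⟩ := h1 hs
    exact ⟨j', hj', hl, h _ ht⟩
  · obtain ⟨j', hj', hl, ht⟩ := h2 hs
    exact ⟨j', hj', hl, h _ ht⟩

lemma NB_mono_T {S T T' : ℕ → Prop} {p q : ℕ} (h : ∀ i, T i → T' i) (hv : NB S T p q) :
    NB S T' p q := by
  obtain ⟨j, hj, hv⟩ := hv
  refine ⟨j, hj, ?_⟩
  rcases hv with ⟨hs, ht⟩ | ⟨hs, ht⟩
  · exact Or.inl ⟨hs, fun j' hj' hl => h _ (ht j' hj' hl)⟩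
  · exact Or.inr ⟨hs, fun j' hj' hl => h _ (ht j' hj' hl)⟩

/-- the value of `VV` depends only on atoms below `2 * KK q`, `2 * KK p` -/
lemma VV_congr {S S' T T' : ℕ → Prop} {p q : ℕ} (hS : ∀ i < 2 * KK p, (S i ↔ S' i))
    (hT : ∀ i < 2 * KK q, (T i ↔ T' i)) : VV S T p q ↔ VV S' T' p q := by
  unfold VV
  refine forall₂_congr fun j hj => ?_
  rw [hS (2 * j) (by omega), hS (2 * j + 1) (by omega)]
  refine and_congr (imp_congr_right fun _ => ?_) (imp_congr_right fun _ => ?_)
  · refine exists_congr fun j' => and_congr_right fun hj' => ?_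
    rw [hT (2 * j') (by omega)]
  · refine exists_congr fun j' => and_congr_right fun hj' => ?_
    rw [hT (2 * j' + 1) (by omega)]

lemma NB_congr {S S' T T' : ℕ → Prop} {p q : ℕ} (hS : ∀ i < 2 * KK p, (S i ↔ S' i))
    (hT : ∀ i < 2 * KK q, (T i ↔ T' i)) : NB S T p q ↔ NB S' T' p q := by
  unfold NB
  refine exists_congr fun j => and_congr_right fun hj => ?_
  rw [hS (2 * j) (by omega), hS (2 * j + 1) (by omega)]
  refine or_congr (and_congr_right fun _ => ?_) (and_congr_right fun _ => ?_)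
  · refine forall₂_congr fun j' hj' => ?_
    rw [hT (2 * j' + 1) (by omega)]
  · refine forall₂_congr fun j' hj' => ?_
    rw [hT (2 * j') (by omega)]

/-- open condition implies closed condition -/
lemma Pt.open_closed (hN : Pt N) {p q : ℕ} (h : VV N N p q) : ¬ NB N N p q := by
  rintro ⟨j, hj, hv⟩
  obtain ⟨h1, h2⟩ := h j hj
  rcases hv with ⟨hs, ht⟩ | ⟨hs, ht⟩
  · obtain ⟨j', hj', hl, hn⟩ := h1 hs
    exact hN.P4 j' hn (ht j' hj' hl)
  · obtain ⟨j', hj', hl, hn⟩ := h2 hs
    exact hN.P4 j' (ht j' hj' hl) hn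

/-- closed condition at `q` implies open condition at `q + 1` -/
lemma Pt.closed_open (hN : Pt N) {p q : ℕ} (hpq : p ≤ q) (h : ¬ NB N N p q) :
    VV N N p (q + 1) := by
  intro j hj
  refine ⟨fun hs => ?_, fun hs => ?_⟩
  · by_contra hcon
    apply h
    refine ⟨j, hj, Or.inl ⟨hs, fun j' hj' hl => ?_⟩⟩
    by_contra hn
    apply hcon
    refine ⟨med j j', ?_, lt_med_left hl, ?_⟩
    · rw [KK_succ]
      exact med_lt_TT (hj.trans_le (KK_mono hpq)) hj'
    · exact (hN.P1 _ _ (lt_med_right hl)).resolve_right hn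
  · by_contra hcon
    apply h
    refine ⟨j, hj, Or.inr ⟨hs, fun j' hj' hl => ?_⟩⟩
    by_contra hn
    apply hcon
    refine ⟨med j' j, ?_, lt_med_right hl, ?_⟩
    · rw [KK_succ]
      exact med_lt_TT hj' (hj.trans_le (KK_mono hpq))
    · exact (hN.P1 _ _ (lt_med_left hl)).resolve_left hn

lemma exists_bound (P : ℕ → ℕ → Prop) (hm : ∀ j q q', q ≤ q' → P j q → P j q') (n : ℕ)
    (h : ∀ j < n, ∃ q, P j q) : ∃ q, ∀ j < n, P j q := by
  induction n with
  | zero => exact ⟨0, fun j hj => absurd hj (Nat.not_lt_zero _)⟩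
  | succ n ih =>
    obtain ⟨q1, h1⟩ := ih (fun j hj => h j (by omega))
    obtain ⟨q2, h2⟩ := h n (by omega)
    refine ⟨max q1 q2, fun j hj => ?_⟩
    rcases Nat.lt_succ_iff_lt_or_eq.mp hj with h3 | h3
    · exact hm _ _ _ (le_max_left _ _) (h1 j h3)
    · subst h3
      exact hm _ _ _ (le_max_right _ _) h2

/-- for every level the open condition eventually holds -/
lemma Pt.exists_open (hN : Pt N) (p : ℕ) : ∃ q, VV N N p q := by
  apply exists_bound (fun j q => (N (2 * j) → ∃ j' < KK q, Lt j j' ∧ N (2 * j')) ∧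
    (N (2 * j + 1) → ∃ j' < KK q, Lt j' j ∧ N (2 * j' + 1)))
  · rintro j q q' hq ⟨h1, h2⟩
    refine ⟨fun hs => ?_, fun hs => ?_⟩
    · obtain ⟨j', hj', hl, ht⟩ := h1 hs
      exact ⟨j', hj'.trans_le (KK_mono hq), hl, ht⟩
    · obtain ⟨j', hj', hl, ht⟩ := h2 hs
      exact ⟨j', hj'.trans_le (KK_mono hq), hl, ht⟩
  · intro j _
    by_cases h1 : N (2 * j)
    · obtain ⟨j', hl, hn⟩ := hN.P2a j h1
      refine ⟨j' + 1, fun _ => ⟨j', lt_of_lt_of_le (Nat.lt_succ_self _) (le_KK _), hl, hn⟩,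
        fun h2 => (hN.P4 j h1 h2).elim⟩
    · by_cases h2 : N (2 * j + 1)
      · obtain ⟨j', hl, hn⟩ := hN.P2b j h2
        exact ⟨j' + 1, fun h => (h1 h).elim,
          fun _ => ⟨j', lt_of_lt_of_le (Nat.lt_succ_self _) (le_KK _), hl, hn⟩⟩
      · exact ⟨0, fun h => (h1 h).elim, fun h => (h2 h).elim⟩

/-- `St N p t` : `t` is the least with the closed condition at `p + t`. -/
def St (N : ℕ → Prop) (p t : ℕ) : Prop :=
  ¬ NB N N p (p + t) ∧ ∀ t' < t, NB N N p (p + t')

lemma Pt.exists_St (hN : Pt N) (p : ℕ) : ∃ t, St N p t := by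
  classical
  obtain ⟨q, hq⟩ := hN.exists_open p
  have h : ∃ t, ¬ NB N N p (p + t) := ⟨q, hN.open_closed (VV_mono_q (by omega) hq)⟩
  refine ⟨Nat.find h, Nat.find_spec h, fun t' ht' => ?_⟩
  by_contra hc
  exact Nat.find_min h ht' hc

lemma St_unique {p t t' : ℕ} (h : St N p t) (h' : St N p t') : t = t' := by
  rcases lt_trichotomy t t' with hlt | heq | hgt
  · exact (h.1 (h'.2 t hlt)).elim
  · exact heq
  · exact (h'.1 (h.2 t' hgt)).elim

lemma St_congr {M : ℕ → Prop} {p t : ℕ} (h : ∀ i < 2 * KK (p + t), (N i ↔ M i)) :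
    St N p t ↔ St M p t := by
  have key : ∀ t' ≤ t, (NB N N p (p + t') ↔ NB M M p (p + t')) := by
    intro t' ht'
    have h1 := KK_mono (show p ≤ p + t by omega)
    have h2 := KK_mono (show p + t' ≤ p + t by omega)
    exact NB_congr (fun i hi => h i (by omega)) (fun i hi => h i (by omega))
  unfold St
  rw [key t le_rfl]
  refine and_congr_right fun _ => forall₂_congr fun t' ht' => key t' ht'.le

/-- legal chain from level `p` -/
def Leg (N : ℕ → Prop) : ℕ → List ℕ → Prop
  | _, [] => True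
  | p, t :: l => St N p t ∧ VV N N p (p + t) ∧ Leg N (p + t + 1) l

/-- end level of a chain -/
def En : ℕ → List ℕ → ℕ
  | p, [] => p
  | p, t :: l => En (p + t + 1) l

lemma le_En (p : ℕ) (l : List ℕ) : p + l.length ≤ En p l := by
  induction l generalizing p with
  | nil => simp [En]
  | cons t l ih =>
    have := ih (p + t + 1)
    simp only [En, List.length_cons]
    omega

lemma Leg_congr {M : ℕ → Prop} {p : ℕ} {l : List ℕ} (h : ∀ i < 2 * KK (En p l), (N i ↔ M i)) :
    Leg N p l ↔ Leg M p l := by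
  induction l generalizing p with
  | nil => simp [Leg]
  | cons t l ih =>
    have hle : p + t + 1 ≤ En p (t :: l) := by
      have := le_En (p + t + 1) l
      simp only [En]
      omega
    have h1 := KK_mono (show p + t ≤ En p (t :: l) by omega)
    have h2 := KK_mono (show p ≤ p + t by omega)
    simp only [Leg]
    refine and_congr (St_congr fun i hi => h i (by omega)) (and_congr ?_ (ih fun i hi => h i hi))
    exact VV_congr (fun i hi => h i (by omega)) (fun i hi => h i (by omega))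

lemma Leg_append {p : ℕ} {l : List ℕ} {t : ℕ} (h : Leg N p l) (h1 : St N (En p l) t)
    (h2 : VV N N (En p l) (En p l + t)) : Leg N p (l ++ [t]) := by
  induction l generalizing p with
  | nil => exact ⟨h1, h2, trivial⟩
  | cons t' l ih =>
    obtain ⟨ha, hb, hc⟩ := h
    exact ⟨ha, hb, ih hc h1 h2⟩

lemma Leg_unique_length {p : ℕ} {l l' : List ℕ} (h : Leg N p l) (h' : Leg N p l')
    (hl : l.length = l'.length) : l = l' := by
  induction l generalizing p l' with
  | nil =>
    cases l' with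
    | nil => rfl
    | cons t' l' => simp at hl
  | cons t l ih =>
    cases l' with
    | nil => simp at hl
    | cons t' l' =>
      obtain ⟨ha, hb, hc⟩ := h
      obtain ⟨ha', hb', hc'⟩ := h'
      have := St_unique ha ha'
      subst this
      rw [ih hc hc' (by simpa using hl)]

lemma Leg_unique_stop {p : ℕ} {l l' : List ℕ} {t t' : ℕ} (h : Leg N p l) (h' : Leg N p l')
    (hs : St N (En p l) t) (hv : ¬ VV N N (En p l) (En p l + t))
    (hs' : St N (En p l') t') (hv' : ¬ VV N N (En p l') (En p l' + t')) : l = l' := by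
  induction l generalizing p l' with
  | nil =>
    cases l' with
    | nil => rfl
    | cons t1 l' =>
      obtain ⟨ha', hb', hc'⟩ := h'
      have := St_unique hs ha'
      subst this
      exact (hv hb').elim
  | cons t1 l ih =>
    cases l' with
    | nil =>
      obtain ⟨ha, hb, hc⟩ := h
      have := St_unique hs' ha
      subst this
      exact (hv' hb).elim
    | cons t2 l' =>
      obtain ⟨ha, hb, hc⟩ := h
      obtain ⟨ha', hb', hc'⟩ := h'
      have := St_unique ha ha'
      subst this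
      rw [ih hc hc' hs hv hs' hv']

/-- The finite part of `N` below `B` as a bit string. -/
noncomputable def bits (N : ℕ → Prop) (B : ℕ) : ℕ :=
  open Classical in Nat.rec (motive := fun _ => ℕ) 0 (fun i r => if N i then r ||| 2 ^ i else r) B

lemma testBit_bits (N : ℕ → Prop) (B i : ℕ) :
    (bits N B).testBit i = true ↔ i < B ∧ N i := by
  classical
  induction B with
  | zero => simp [bits]
  | succ B ih =>
    have hs : bits N (B + 1) = if N B then bits N B ||| 2 ^ B else bits N B := by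
      simp only [bits]
    rw [hs]
    by_cases hB : N B
    · rw [if_pos hB, Nat.testBit_or, Nat.testBit_two_pow]
      simp only [Bool.or_eq_true, decide_eq_true_eq, ih]
      constructor
      · rintro (⟨h1, h2⟩ | h)
        · exact ⟨by omega, h2⟩
        · subst h
          exact ⟨by omega, hB⟩
      · rintro ⟨h1, h2⟩
        rcases Nat.lt_succ_iff_lt_or_eq.mp h1 with h | h
        · exact Or.inl ⟨h, h2⟩
        · exact Or.inr h.symm
    · rw [if_neg hB, ih]
      constructor
      · rintro ⟨h1, h2⟩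
        exact ⟨by omega, h2⟩
      · rintro ⟨h1, h2⟩
        rcases Nat.lt_succ_iff_lt_or_eq.mp h1 with h | h
        · exact ⟨h, h2⟩
        · subst h
          exact (hB h2).elim

lemma bits_unique (N : ℕ → Prop) {B s : ℕ} (h : ∀ i, s.testBit i = true ↔ i < B ∧ N i) :
    s = bits N B := by
  apply Nat.eq_of_testBit_eq
  intro i
  rw [Bool.eq_iff_iff, h, testBit_bits]

/-- the predicate coded by a bit string -/
def bt (s : ℕ) (i : ℕ) : Prop := s.testBit i = true

/-- The open (enumerable) complement of the closed set, positive in `T`.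
`m = true`: stop version; `m = false`: continuing version. -/
def Out (m : Bool) (s e t : ℕ) (T : ℕ → Prop) : Prop :=
  (∃ i < 2 * KK e, ¬ bt s i ∧ T i) ∨ NB (bt s) T e (e + t) ∨
    (m = true ∧ VV (bt s) T e (e + t)) ∨ (m = false ∧ ∃ t' < t, VV (bt s) T e (e + t'))

lemma Out_mono {m : Bool} {s e t : ℕ} {T T' : ℕ → Prop} (h : ∀ i, T i → T' i)
    (ho : Out m s e t T) : Out m s e t T' := by
  rcases ho with ⟨i, hi, h1, h2⟩ | h1 | ⟨h1, h2⟩ | ⟨h1, t', ht', h2⟩
  · exact Or.inl ⟨i, hi, h1, h _ h2⟩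
  · exact Or.inr (Or.inl (NB_mono_T h h1))
  · exact Or.inr (Or.inr (Or.inl ⟨h1, VV_mono_T h h2⟩))
  · exact Or.inr (Or.inr (Or.inr ⟨h1, t', ht', VV_mono_T h h2⟩))

lemma Out_congr {m : Bool} {s e t : ℕ} {T T' : ℕ → Prop}
    (h : ∀ i < 2 * KK (e + t), (T i ↔ T' i)) : Out m s e t T ↔ Out m s e t T' := by
  have he := KK_mono (show e ≤ e + t by omega)
  unfold Out
  refine or_congr ?_ (or_congr ?_ (or_congr ?_ ?_))
  · refine exists_congr fun i => and_congr_right fun hi => ?_
    rw [h i (by omega)]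
  · exact NB_congr (fun i hi => Iff.rfl) h
  · exact and_congr_right fun _ => VV_congr (fun i hi => Iff.rfl) h
  · refine and_congr_right fun _ => exists_congr fun t' => and_congr_right fun ht' => ?_
    have he' := KK_mono (show e + t' ≤ e + t by omega)
    exact VV_congr (fun i hi => Iff.rfl) (fun i hi => h i (by omega))

/-- if `N` is in the closed set then `s` is the sign pattern of `N` below the level -/
lemma Pt.agree_of_not_out (hN : Pt N) {m : Bool} {s e t : ℕ} (h : ¬ Out m s e t N) :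
    ∀ i < 2 * KK e, (bt s i ↔ N i) := by
  have ha : ∀ i < 2 * KK e, N i → bt s i := by
    intro i hi hn
    by_contra hc
    exact h (Or.inl ⟨i, hi, hc, hn⟩)
  have hb : ¬ NB (bt s) N e (e + t) := fun hc => h (Or.inr (Or.inl hc))
  intro i hi
  refine ⟨fun hs => ?_, ha i hi⟩
  by_contra hn
  apply hb
  obtain ⟨j, hj | hj⟩ : ∃ j, i = 2 * j ∨ i = 2 * j + 1 := ⟨i / 2, by omega⟩
  · subst hj
    refine ⟨j, by omega, Or.inl ⟨hs, fun j' hj' hl => ?_⟩⟩
    exact (hN.P1 _ _ hl).resolve_left hn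
  · subst hj
    refine ⟨j, by omega, Or.inr ⟨hs, fun j' hj' hl => ?_⟩⟩
    exact (hN.P1 _ _ hl).resolve_right hn

lemma Out_iff_of_agree {m : Bool} {s e t : ℕ} (h : ∀ i < 2 * KK e, (bt s i ↔ N i)) :
    Out m s e t N ↔ NB N N e (e + t) ∨
    (m = true ∧ VV N N e (e + t)) ∨ (m = false ∧ ∃ t' < t, VV N N e (e + t')) := by
  have h1 : ¬ ∃ i < 2 * KK e, ¬ bt s i ∧ N i := by
    rintro ⟨i, hi, h1, h2⟩
    exact h1 ((h i hi).mpr h2)
  unfold Out
  rw [or_iff_right h1]
  refine or_congr (NB_congr h (fun i hi => Iff.rfl)) (or_congr (and_congr_right fun _ =>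
    VV_congr h (fun i hi => Iff.rfl)) (and_congr_right fun _ =>
    exists_congr fun t' => and_congr_right fun _ => VV_congr h (fun i hi => Iff.rfl)))

/-- Starting level for atom `a`. -/
def start (m : Bool) (p0 a : ℕ) : ℕ := if m = true then a + 1 else p0

/-- legality of a code `(l, t, s)` for the atom `a` (decidable). -/
def Legal (m : Bool) (p0 a : ℕ) (D : List ℕ × ℕ × ℕ) : Prop :=
  (m = false → D.1.length = a + 1) ∧ Leg (bt D.2.2) (start m p0 a) D.1 ∧
    (∀ i < D.2.2, bt D.2.2 i → i < 2 * KK (En (start m p0 a) D.1)) ∧ bt D.2.2 a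

/-- the canonical code -/
def Canon (N : ℕ → Prop) (m : Bool) (p0 a : ℕ) (D : List ℕ × ℕ × ℕ) : Prop :=
  (m = false → D.1.length = a + 1) ∧ Leg N (start m p0 a) D.1 ∧
    St N (En (start m p0 a) D.1) D.2.1 ∧
    (m = true → ¬ VV N N (En (start m p0 a) D.1) (En (start m p0 a) D.1 + D.2.1)) ∧
    D.2.2 = bits N (2 * KK (En (start m p0 a) D.1))

lemma Canon_unique {m : Bool} {p0 a : ℕ} {D D' : List ℕ × ℕ × ℕ}
    (h : Canon N m p0 a D) (h' : Canon N m p0 a D') : D = D' := by
  obtain ⟨l, t, s⟩ := D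
  obtain ⟨l', t', s'⟩ := D'
  obtain ⟨h1, h2, h3, h4, h5⟩ := h
  obtain ⟨h1', h2', h3', h4', h5'⟩ := h'
  simp only at *
  have hl : l = l' := by
    cases m with
    | false => exact Leg_unique_length h2 h2' ((h1 rfl).trans (h1' rfl).symm)
    | true => exact Leg_unique_stop h2 h2' h3 (h4 rfl) h3' (h4' rfl)
  subst hl
  have ht := St_unique h3 h3'
  subst ht
  rw [h5, h5']

lemma lt_of_bt {s i : ℕ} (h : bt s i) : i < s := by
  have := Nat.ge_two_pow_of_testBit h
  exact lt_of_lt_of_le Nat.lt_two_pow_self this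

/-- Key equivalence: for `N` of the right kind, the legal codes whose closed set contains `N`
are exactly the canonical ones (and then `N a`). -/
lemma Pt.key (hN : Pt N) {m : Bool} {p0 a : ℕ}
    (hR : m = false → ∀ l t, Leg N p0 l → St N (En p0 l) t → VV N N (En p0 l) (En p0 l + t))
    (D : List ℕ × ℕ × ℕ) :
    (Legal m p0 a D ∧ ¬ Out m D.2.2 (En (start m p0 a) D.1) D.2.1 N) ↔
      (N a ∧ Canon N m p0 a D) := by
  obtain ⟨l, t, s⟩ := D
  simp only [Legal, Canon]
  set e := En (start m p0 a) l with he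
  constructor
  · rintro ⟨⟨h1, h2, h3, h4⟩, h5⟩
    have hag := hN.agree_of_not_out h5
    have hlt : a < 2 * KK e := h3 a (lt_of_bt h4) h4
    have hs : s = bits N (2 * KK e) := by
      apply bits_unique
      intro i
      constructor
      · intro hi
        have := h3 i (lt_of_bt hi) hi
        exact ⟨this, (hag i this).mp hi⟩
      · rintro ⟨hi, hn⟩
        exact (hag i hi).mpr hn
    have hleg : Leg N (start m p0 a) l := (Leg_congr hag).mp h2
    rw [Out_iff_of_agree hag] at h5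
    push Not at h5
    obtain ⟨h6, h7, h8⟩ := h5
    refine ⟨(hag a hlt).mp h4, h1, hleg, ?_, h7, hs⟩
    cases m with
    | true =>
      refine ⟨h6, fun t' ht' => ?_⟩
      by_contra hc
      exact h7 rfl (VV_mono_q (by omega) (hN.closed_open (by omega) hc))
    | false =>
      refine ⟨h6, fun t' ht' => ?_⟩
      by_contra hc
      obtain ⟨t0, ht0⟩ := hN.exists_St e
      have ht0' : t0 ≤ t' := by
        by_contra hlt
        exact hc (ht0.2 t' (by omega))
      have hv := hR rfl l t0 hleg ht0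
      exact h8 rfl t0 (by omega) hv
  · rintro ⟨hNa, h1, h2, h3, h4, h5⟩
    have hag : ∀ i < 2 * KK e, (bt s i ↔ N i) := by
      intro i hi
      rw [h5]
      unfold bt
      rw [testBit_bits]
      exact and_iff_right hi
    have hle : a + 1 ≤ e := by
      have := le_En (start m p0 a) l
      cases m with
      | true =>
        simp only [start, if_true] at this he
        omega
      | false =>
        have := h1 rfl
        omega
    have hlt : a < 2 * KK e := by
      have := le_KK e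
      omega
    refine ⟨⟨h1, (Leg_congr hag).mpr h2, ?_, (hag a hlt).mpr hNa⟩, ?_⟩
    · intro i _ hi
      rw [h5] at hi
      unfold bt at hi
      rw [testBit_bits] at hi
      exact hi.1
    · rw [Out_iff_of_agree hag]
      push Not
      refine ⟨h3.1, h4, fun hm t' ht' hv => ?_⟩
      exact hN.open_closed hv (h3.2 t' ht')

/-- Existence of canonical codes. -/
lemma Pt.exists_mode (hN : Pt N) : ∃ m : Bool, ∃ p0 : ℕ,
    (m = false → ∀ l t, Leg N p0 l → St N (En p0 l) t → VV N N (En p0 l) (En p0 l + t)) ∧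
    ∀ a, ∃ D, Canon N m p0 a D := by
  by_cases h : ∃ p0, ∀ l t, Leg N p0 l → St N (En p0 l) t → VV N N (En p0 l) (En p0 l + t)
  · obtain ⟨p0, hp0⟩ := h
    refine ⟨false, p0, fun _ => hp0, fun a => ?_⟩
    have hex : ∀ r, ∃ l : List ℕ, l.length = r ∧ Leg N p0 l := by
      intro r
      induction r with
      | zero => exact ⟨[], rfl, trivial⟩
      | succ r ih =>
        obtain ⟨l, hl, hleg⟩ := ih
        obtain ⟨t, ht⟩ := hN.exists_St (En p0 l)
        exact ⟨l ++ [t], by simp [hl], Leg_append hleg ht (hp0 l t hleg ht)⟩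
    obtain ⟨l, hl, hleg⟩ := hex (a + 1)
    obtain ⟨t, ht⟩ := hN.exists_St (En p0 l)
    exact ⟨(l, t, bits N (2 * KK (En p0 l))), fun _ => hl, hleg, ht, by simp, rfl⟩
  · push Not at h
    refine ⟨true, 0, by simp, fun a => ?_⟩
    obtain ⟨l, t, h1, h2, h3⟩ := h (a + 1)
    exact ⟨(l, t, bits N (2 * KK (En (a + 1) l))), by simp, h1, h2, fun _ => h3, rfl⟩

end Pool.Agent.MP_64ff70_lc
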