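import Pool.Agent.Lib.MP_64ff70_lc.Prim

/-!
Main theorem for `MP_64ff70_lc`: the neighbourhood set of every point of the Hilbert cube is
enumeration equivalent to the complement of the graph of a total function.
-/

set_option autoImplicit false

namespace Pool.Agent.MP_64ff70_lc

/-- value of a cut -/
noncomputable def vv (j : ℕ) : ℝ := ((aa j : ℝ) - (bb j : ℝ)) / ((cc j : ℝ) + 1)

lemma Lt_iff (j j' : ℕ) : Lt j j' ↔ nn j = nn j' ∧ vv j < vv j' := by
  unfold Lt vv
  refine and_congr_right fun _ => ?_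
  rw [div_lt_div_iff₀ (by positivity) (by positivity)]
  constructor
  · intro h
    have h' : ((aa j * (cc j' + 1) + bb j' * (cc j + 1) : ℕ) : ℝ) <
      ((aa j' * (cc j + 1) + bb j * (cc j' + 1) : ℕ) : ℝ) := by exact_mod_cast h
    push_cast at h'
    linarith
  · intro h
    have h' : ((aa j * (cc j' + 1) + bb j' * (cc j + 1) : ℕ) : ℝ) <
      ((aa j' * (cc j + 1) + bb j * (cc j' + 1) : ℕ) : ℝ) := by
      push_cast
      linarith
    exact_mod_cast h'

/-- the neighbourhood set -/
def NX (x : ℕ → ℝ) (k : ℕ) : Prop :=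
  ∃ n a b c : ℕ,
    (k = 2 * Nat.pair n (Nat.pair (Nat.pair a b) c) ∧
      ((a:ℝ) - (b:ℝ)) / ((c:ℝ) + 1) < x n) ∨
    (k = 2 * Nat.pair n (Nat.pair (Nat.pair a b) c) + 1 ∧
      x n < ((a:ℝ) - (b:ℝ)) / ((c:ℝ) + 1))

lemma idx_eq (j : ℕ) : j = Nat.pair (nn j) (Nat.pair (Nat.pair (aa j) (bb j)) (cc j)) := by
  simp [nn, aa, bb, cc]

lemma NX_even (x : ℕ → ℝ) (j : ℕ) : NX x (2 * j) ↔ vv j < x (nn j) := by
  constructor
  · rintro ⟨n, a, b, c, ⟨h1, h2⟩ | ⟨h1, h2⟩⟩
    · have hj : j = Nat.pair n (Nat.pair (Nat.pair a b) c) := by omega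
      subst hj
      simpa [vv, nn, aa, bb, cc] using h2
    · omega
  · intro h
    refine ⟨nn j, aa j, bb j, cc j, Or.inl ⟨?_, h⟩⟩
    rw [← idx_eq]

lemma NX_odd (x : ℕ → ℝ) (j : ℕ) : NX x (2 * j + 1) ↔ x (nn j) < vv j := by
  constructor
  · rintro ⟨n, a, b, c, ⟨h1, h2⟩ | ⟨h1, h2⟩⟩
    · omega
    · have hj : j = Nat.pair n (Nat.pair (Nat.pair a b) c) := by omega
      subst hj
      simpa [vv, nn, aa, bb, cc] using h2
  · intro h
    refine ⟨nn j, aa j, bb j, cc j, Or.inr ⟨?_, h⟩⟩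
    rw [← idx_eq]

/-- cuts are dense -/
lemma exists_cut (n : ℕ) (u w : ℝ) (h : u < w) : ∃ j, nn j = n ∧ u < vv j ∧ vv j < w := by
  obtain ⟨q, h1, h2⟩ := exists_rat_btwn h
  refine ⟨Nat.pair n (Nat.pair (Nat.pair q.num.toNat (-q.num).toNat) (q.den - 1)), ?_, ?_⟩
  · simp [nn]
  · have hv : vv (Nat.pair n (Nat.pair (Nat.pair q.num.toNat (-q.num).toNat) (q.den - 1)))
        = (q : ℝ) := by
      simp only [vv, aa, bb, cc, Nat.unpair_pair]
      have hd : ((q.den - 1 : ℕ) : ℝ) + 1 = (q.den : ℝ) := by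
        have := q.den_pos
        have h3 : q.den - 1 + 1 = q.den := by omega
        exact_mod_cast h3
      have hn : ((q.num.toNat : ℕ) : ℝ) - (((-q.num).toNat : ℕ) : ℝ) = ((q.num : ℤ) : ℝ) := by
        have h3 : ((q.num.toNat : ℕ) : ℤ) - (((-q.num).toNat : ℕ) : ℤ) = q.num :=
          Int.toNat_sub_toNat_neg q.num
        exact_mod_cast h3
      rw [hd, hn, Rat.cast_def]
    rw [hv]
    exact ⟨h1, h2⟩

lemma pt_NX (x : ℕ → ℝ) : Pt (NX x) where
  P1 := by
    intro j j' h
    rw [Lt_iff] at h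
    rw [NX_even, NX_odd, ← h.1]
    by_contra hc
    push Not at hc
    linarith [h.2, hc.1, hc.2]
  P2a := by
    intro j h
    rw [NX_even] at h
    obtain ⟨j', h1, h2, h3⟩ := exists_cut (nn j) _ _ h
    refine ⟨j', (Lt_iff _ _).mpr ⟨h1.symm, h2⟩, ?_⟩
    rw [NX_even, h1]
    exact h3
  P2b := by
    intro j h
    rw [NX_odd] at h
    obtain ⟨j', h1, h2, h3⟩ := exists_cut (nn j) _ _ h
    refine ⟨j', (Lt_iff _ _).mpr ⟨h1, h3⟩, ?_⟩
    rw [NX_odd, h1]
    exact h2
  P4 := by
    intro j h1 h2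
    rw [NX_even] at h1
    rw [NX_odd] at h2
    exact lt_asymm h1 h2

/-- Combinatorial main theorem. -/
theorem Pt.main {N : ℕ → Prop} (hN : Pt N) : ∃ f : ℕ → ℕ,
    (∃ W : ℕ × ℕ → Prop, REPred W ∧ ∀ y : ℕ, N y ↔
      ∃ u : ℕ, W (y, u) ∧ ∀ i : ℕ, u.testBit i = true → f (Nat.unpair i).1 ≠ (Nat.unpair i).2) ∧
    (∃ W : ℕ × ℕ → Prop, REPred W ∧ ∀ y : ℕ, f (Nat.unpair y).1 ≠ (Nat.unpair y).2 ↔
      ∃ u : ℕ, W (y, u) ∧ ∀ i : ℕ, u.testBit i = true → N i) := by
  classical
  obtain ⟨m, p0, hR, hC⟩ := hN.exists_mode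
  choose D hD using hC
  let f : ℕ → ℕ := fun a => if N a then Encodable.encode (D a) + 1 else 0
  refine ⟨f, ⟨W1, re_W1, fun y => ?_⟩, ⟨W2 m p0, re_W2 m p0, fun y => ?_⟩⟩
  · constructor
    · intro hy
      refine ⟨2 ^ (Nat.pair y 0), ?_, ?_⟩
      · simp only [W1, bt]
        rw [Nat.testBit_two_pow]
        simp
      · intro i hi
        rw [Nat.testBit_two_pow] at hi
        have hi' : Nat.pair y 0 = i := by simpa using hi
        subst hi'
        simp [f, hy]
    · rintro ⟨u, hu, h⟩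
      have h1 := h _ hu
      simp only [Nat.unpair_pair, f] at h1
      by_contra hc
      rw [if_neg hc] at h1
      exact h1 rfl
  · -- G ≤ N
    obtain ⟨a, c, rfl⟩ : ∃ a c, y = Nat.pair a c := ⟨_, _, (Nat.pair_unpair y).symm⟩
    simp only [Nat.unpair_pair, W2]
    rcases Nat.eq_zero_or_pos c with hc | hc
    · subst hc
      have h1 : f a ≠ 0 ↔ N a := by
        by_cases h : N a
        · simp [f, h]
        · simp [f, h]
      rw [h1]
      constructor
      · intro h
        refine ⟨2 ^ a, Or.inl ⟨rfl, ?_⟩, ?_⟩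
        · simp only [bt]
          rw [Nat.testBit_two_pow]
          simp
        · intro i hi
          rw [Nat.testBit_two_pow] at hi
          have hi' : a = i := by simpa using hi
          subst hi'
          exact h
      · rintro ⟨u, h2 | h2, h3⟩
        · exact h3 _ h2.2
        · exact absurd rfl h2.1
    · obtain ⟨c, rfl⟩ : ∃ c', c = c' + 1 := ⟨c - 1, by omega⟩
      simp only [Nat.add_sub_cancel]
      have key := hN.key hR (a := a) (Dc c)
      have h1 : f a ≠ c + 1 ↔ (Encodable.encode (Dc c) ≠ c ∨ ¬ Legal m p0 a (Dc c) ∨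
          Out m (Dc c).2.2 (En (start m p0 a) (Dc c).1) (Dc c).2.1 N) := by
        rw [← not_iff_not]
        push Not
        rw [key]
        constructor
        · intro h
          by_cases hNa : N a
          · have h2 : Encodable.encode (D a) + 1 = c + 1 := by simpa [f, hNa] using h
            have h3 : c = Encodable.encode (D a) := by omega
            subst h3
            rw [Dc_encode]
            exact ⟨rfl, hNa, hD a⟩
          · simp [f, hNa] at h
        · rintro ⟨h2, h3, h4⟩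
          have h5 := Canon_unique h4 (hD a)
          rw [h5] at h2
          simp [f, h3, h2]
      rw [h1]
      constructor
      · intro h
        rcases h with h | h | h
        · exact ⟨0, Or.inr ⟨by omega, Or.inl h⟩, by simp⟩
        · exact ⟨0, Or.inr ⟨by omega, Or.inr (Or.inl h)⟩, by simp⟩
        · set e := En (start m p0 a) (Dc c).1 with he
          refine ⟨bits N (2 * KK (e + (Dc c).2.1)), Or.inr ⟨by omega, Or.inr (Or.inr ?_)⟩, ?_⟩
          · refine (Out_congr fun i hi => ?_).mp h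
            simp only [bt]
            rw [testBit_bits]
            exact (and_iff_right hi).symm
          · intro i hi
            rw [testBit_bits] at hi
            exact hi.2
      · rintro ⟨u, h2 | h2, h3⟩
        · omega
        · rcases h2.2 with h | h | h
          · exact Or.inl h
          · exact Or.inr (Or.inl h)
          · exact Or.inr (Or.inr (Out_mono h3 h))

end Pool.Agent.MP_64ff70_lc
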