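import Pool.Agent.Lib.MP_64ff70_lc.Comb

/-!
Primitive recursiveness of the relations used in `MP_64ff70_lc`.
-/

set_option autoImplicit false

namespace Pool.Agent.MP_64ff70_lc

open Primrec

section Gen
variable {α : Type*} [Primcodable α]

lemma pp_exists {R : α → ℕ → Prop} (hR : PrimrecPred (fun z : ℕ × α => R z.2 z.1))
    {f : α → ℕ} (hf : Primrec f) : PrimrecPred fun x => ∃ j < f x, R x j :=
  ((PrimrecRel.exists_mem_list (R := fun (j : ℕ) (x : α) => R x j) hR).comp
    (Primrec.list_range.comp hf) Primrec.id).of_eq (by simp)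

lemma pp_forall {R : α → ℕ → Prop} (hR : PrimrecPred (fun z : ℕ × α => R z.2 z.1))
    {f : α → ℕ} (hf : Primrec f) : PrimrecPred fun x => ∀ j < f x, R x j :=
  ((PrimrecRel.forall_mem_list (R := fun (j : ℕ) (x : α) => R x j) hR).comp
    (Primrec.list_range.comp hf) Primrec.id).of_eq (by simp)

lemma pp_imp {p q : α → Prop} (hp : PrimrecPred p) (hq : PrimrecPred q) :
    PrimrecPred fun x => p x → q x :=
  (hp.not.or hq).of_eq fun x => by tauto

lemma pp_const (p : Prop) : PrimrecPred fun _ : α => p := by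
  classical
  refine ⟨fun _ => inferInstance, ?_⟩
  exact Primrec.const (decide p)

lemma pp_lt {f g : α → ℕ} (hf : Primrec f) (hg : Primrec g) : PrimrecPred fun x => f x < g x :=
  Primrec.nat_lt.comp hf hg

lemma pp_eq {f g : α → ℕ} (hf : Primrec f) (hg : Primrec g) : PrimrecPred fun x => f x = g x :=
  Primrec.eq.comp hf hg

lemma p_add {f g : α → ℕ} (hf : Primrec f) (hg : Primrec g) : Primrec fun x => f x + g x :=
  Primrec.nat_add.comp hf hg

lemma p_mul {f g : α → ℕ} (hf : Primrec f) (hg : Primrec g) : Primrec fun x => f x * g x :=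
  Primrec.nat_mul.comp hf hg

end Gen

lemma p_nn : Primrec nn := Primrec.fst.comp Primrec.unpair
lemma p_aa : Primrec aa :=
  Primrec.fst.comp (Primrec.unpair.comp (Primrec.fst.comp (Primrec.unpair.comp
    (Primrec.snd.comp Primrec.unpair))))
lemma p_bb : Primrec bb :=
  Primrec.snd.comp (Primrec.unpair.comp (Primrec.fst.comp (Primrec.unpair.comp
    (Primrec.snd.comp Primrec.unpair))))
lemma p_cc : Primrec cc :=
  Primrec.snd.comp (Primrec.unpair.comp (Primrec.snd.comp Primrec.unpair))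

section Gen2
variable {α : Type*} [Primcodable α]

lemma pp_Lt {f g : α → ℕ} (hf : Primrec f) (hg : Primrec g) :
    PrimrecPred fun x => Lt (f x) (g x) := by
  unfold Lt
  refine (pp_eq (p_nn.comp hf) (p_nn.comp hg)).and (pp_lt ?_ ?_)
  · exact p_add (p_mul (p_aa.comp hf) (p_add (p_cc.comp hg) (Primrec.const 1)))
      (p_mul (p_bb.comp hg) (p_add (p_cc.comp hf) (Primrec.const 1)))
  · exact p_add (p_mul (p_aa.comp hg) (p_add (p_cc.comp hf) (Primrec.const 1)))
      (p_mul (p_bb.comp hf) (p_add (p_cc.comp hg) (Primrec.const 1)))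

lemma p_TT : Primrec TT := by
  unfold TT
  have h2 : Primrec fun M : ℕ => 2 * M := p_mul (Primrec.const 2) Primrec.id
  exact p_add (Primrec₂.natPair.comp h2 (Primrec₂.natPair.comp (Primrec₂.natPair.comp h2 h2) h2))
    (Primrec.const 1)

lemma p_KK : Primrec KK := by
  have : Primrec (Nat.rec (motive := fun _ => ℕ) 0 (fun _ r => TT r)) :=
    Primrec.nat_rec₁ 0 (p_TT.comp Primrec.snd)
  exact this

lemma p_pow2 : Primrec fun n : ℕ => 2 ^ n := by
  have : Primrec (Nat.rec (motive := fun _ => ℕ) 1 (fun _ r => r * 2)) :=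
    Primrec.nat_rec₁ 1 (p_mul Primrec.snd (Primrec.const 2))
  refine this.of_eq fun n => ?_
  induction n with
  | zero => rfl
  | succ n ih => rw [pow_succ, ← ih]

lemma pp_bt {f g : α → ℕ} (hf : Primrec f) (hg : Primrec g) :
    PrimrecPred fun x => bt (f x) (g x) := by
  have h : PrimrecPred fun x => f x / 2 ^ (g x) % 2 = 1 :=
    pp_eq (Primrec.nat_mod.comp (Primrec.nat_div.comp hf (p_pow2.comp hg)) (Primrec.const 2))
      (Primrec.const 1)
  refine h.of_eq fun x => ?_
  unfold bt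
  rw [Nat.testBit_eq_decide_div_mod_eq]
  simp

lemma pp_VV {s u p q : α → ℕ} (hs : Primrec s) (hu : Primrec u) (hp : Primrec p)
    (hq : Primrec q) : PrimrecPred fun x => VV (bt (s x)) (bt (u x)) (p x) (q x) := by
  unfold VV
  refine pp_forall (R := fun x j => (bt (s x) (2 * j) → ∃ j' < KK (q x), Lt j j' ∧
    bt (u x) (2 * j')) ∧ (bt (s x) (2 * j + 1) → ∃ j' < KK (q x), Lt j' j ∧
    bt (u x) (2 * j' + 1))) ?_ (p_KK.comp hp)
  have h2 : Primrec fun z : ℕ × α => 2 * z.1 := p_mul (Primrec.const 2) Primrec.fst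
  have h3 : Primrec fun z : ℕ × α => 2 * z.1 + 1 := p_add h2 (Primrec.const 1)
  have k2 : Primrec fun z : ℕ × (ℕ × α) => 2 * z.1 := p_mul (Primrec.const 2) Primrec.fst
  have k3 : Primrec fun z : ℕ × (ℕ × α) => 2 * z.1 + 1 := p_add k2 (Primrec.const 1)
  have hs' : Primrec fun z : ℕ × α => s z.2 := hs.comp Primrec.snd
  have hq' : Primrec fun z : ℕ × α => KK (q z.2) := p_KK.comp (hq.comp Primrec.snd)
  have hu' : Primrec fun z : ℕ × (ℕ × α) => u z.2.2 := hu.comp (Primrec.snd.comp Primrec.snd)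
  have hj : Primrec fun z : ℕ × (ℕ × α) => z.2.1 := Primrec.fst.comp Primrec.snd
  refine (pp_imp (pp_bt hs' h2) ?_).and (pp_imp (pp_bt hs' h3) ?_)
  · exact pp_exists (R := fun (z : ℕ × α) j' => Lt z.1 j' ∧ bt (u z.2) (2 * j'))
      ((pp_Lt hj Primrec.fst).and (pp_bt hu' k2)) hq'
  · exact pp_exists (R := fun (z : ℕ × α) j' => Lt j' z.1 ∧ bt (u z.2) (2 * j' + 1))
      ((pp_Lt Primrec.fst hj).and (pp_bt hu' k3)) hq'

lemma pp_NB {s u p q : α → ℕ} (hs : Primrec s) (hu : Primrec u) (hp : Primrec p)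
    (hq : Primrec q) : PrimrecPred fun x => NB (bt (s x)) (bt (u x)) (p x) (q x) := by
  unfold NB
  refine pp_exists (R := fun x j => (bt (s x) (2 * j) ∧ ∀ j' < KK (q x), Lt j j' →
    bt (u x) (2 * j' + 1)) ∨ (bt (s x) (2 * j + 1) ∧ ∀ j' < KK (q x), Lt j' j →
    bt (u x) (2 * j'))) ?_ (p_KK.comp hp)
  have h2 : Primrec fun z : ℕ × α => 2 * z.1 := p_mul (Primrec.const 2) Primrec.fst
  have h3 : Primrec fun z : ℕ × α => 2 * z.1 + 1 := p_add h2 (Primrec.const 1)
  have k2 : Primrec fun z : ℕ × (ℕ × α) => 2 * z.1 := p_mul (Primrec.const 2) Primrec.fst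
  have k3 : Primrec fun z : ℕ × (ℕ × α) => 2 * z.1 + 1 := p_add k2 (Primrec.const 1)
  have hs' : Primrec fun z : ℕ × α => s z.2 := hs.comp Primrec.snd
  have hq' : Primrec fun z : ℕ × α => KK (q z.2) := p_KK.comp (hq.comp Primrec.snd)
  have hu' : Primrec fun z : ℕ × (ℕ × α) => u z.2.2 := hu.comp (Primrec.snd.comp Primrec.snd)
  have hj : Primrec fun z : ℕ × (ℕ × α) => z.2.1 := Primrec.fst.comp Primrec.snd
  refine ((pp_bt hs' h2).and ?_).or ((pp_bt hs' h3).and ?_)
  · exact pp_forall (R := fun (z : ℕ × α) j' => Lt z.1 j' → bt (u z.2) (2 * j' + 1))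
      (pp_imp (pp_Lt hj Primrec.fst) (pp_bt hu' k3)) hq'
  · exact pp_forall (R := fun (z : ℕ × α) j' => Lt j' z.1 → bt (u z.2) (2 * j'))
      (pp_imp (pp_Lt Primrec.fst hj) (pp_bt hu' k2)) hq'

lemma pp_St {s p t : α → ℕ} (hs : Primrec s) (hp : Primrec p) (ht : Primrec t) :
    PrimrecPred fun x => St (bt (s x)) (p x) (t x) := by
  unfold St
  refine (pp_NB hs hs hp (p_add hp ht)).not.and ?_
  refine pp_forall (R := fun x t' => NB (bt (s x)) (bt (s x)) (p x) (p x + t')) ?_ ht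
  exact pp_NB (hs.comp Primrec.snd) (hs.comp Primrec.snd) (hp.comp Primrec.snd)
    (p_add (hp.comp Primrec.snd) Primrec.fst)

end Gen2

/-- one step of the legality fold -/
noncomputable def stepF (s : ℕ) (st : ℕ × Bool) (t : ℕ) : ℕ × Bool :=
  open Classical in
  (st.1 + t + 1, st.2 && decide (St (bt s) st.1 t ∧ VV (bt s) (bt s) st.1 (st.1 + t)))

lemma fold_fst (s : ℕ) (l : List ℕ) (st : ℕ × Bool) :
    (l.foldl (stepF s) st).1 = En st.1 l := by
  induction l generalizing st with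
  | nil => rfl
  | cons t l ih =>
    rw [List.foldl_cons, ih]
    rfl

lemma fold_snd (s : ℕ) (l : List ℕ) (st : ℕ × Bool) :
    (l.foldl (stepF s) st).2 = true ↔ st.2 = true ∧ Leg (bt s) st.1 l := by
  classical
  induction l generalizing st with
  | nil => simp [Leg]
  | cons t l ih =>
    rw [List.foldl_cons, ih]
    simp only [stepF, Bool.and_eq_true, decide_eq_true_eq, Leg]
    tauto

section Gen3
variable {α : Type*} [Primcodable α]

lemma p_fold {s p : α → ℕ} {l : α → List ℕ} (hs : Primrec s) (hp : Primrec p) (hl : Primrec l) :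
    Primrec fun x => (l x).foldl (stepF (s x)) (p x, true) := by
  classical
  have h : Primrec₂ (fun (a : α) (z : (ℕ × Bool) × ℕ) => stepF (s a) z.1 z.2) := by
    unfold stepF
    have hs' : Primrec fun z : α × ((ℕ × Bool) × ℕ) => s z.1 := hs.comp Primrec.fst
    have hp' : Primrec fun z : α × ((ℕ × Bool) × ℕ) => z.2.1.1 :=
      Primrec.fst.comp (Primrec.fst.comp Primrec.snd)
    have hb' : Primrec fun z : α × ((ℕ × Bool) × ℕ) => z.2.1.2 :=
      Primrec.snd.comp (Primrec.fst.comp Primrec.snd)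
    have ht' : Primrec fun z : α × ((ℕ × Bool) × ℕ) => z.2.2 := Primrec.snd.comp Primrec.snd
    have hd : PrimrecPred fun z : α × ((ℕ × Bool) × ℕ) =>
        St (bt (s z.1)) z.2.1.1 z.2.2 ∧ VV (bt (s z.1)) (bt (s z.1)) z.2.1.1 (z.2.1.1 + z.2.2) :=
      (pp_St hs' hp' ht').and (pp_VV hs' hs' hp' (p_add hp' ht'))
    exact Primrec.pair (p_add (p_add hp' ht') (Primrec.const 1))
      (Primrec.and.comp hb' hd.decide)
  exact Primrec.list_foldl hl (hp.pair (Primrec.const true)) h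

lemma p_En {p : α → ℕ} {l : α → List ℕ} (hp : Primrec p) (hl : Primrec l) :
    Primrec fun x => En (p x) (l x) :=
  (Primrec.fst.comp (p_fold (Primrec.const 0) hp hl)).of_eq fun _ => fold_fst _ _ _

lemma pp_Leg {s p : α → ℕ} {l : α → List ℕ} (hs : Primrec s) (hp : Primrec p) (hl : Primrec l) :
    PrimrecPred fun x => Leg (bt (s x)) (p x) (l x) := by
  have h : PrimrecPred fun x => ((l x).foldl (stepF (s x)) (p x, true)).2 = true :=
    Primrec.eq.comp (Primrec.snd.comp (p_fold hs hp hl)) (Primrec.const true)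
  refine h.of_eq fun x => ?_
  rw [fold_snd]
  simp

lemma p_start (m : Bool) (p0 : ℕ) {a : α → ℕ} (ha : Primrec a) :
    Primrec fun x => start m p0 (a x) := by
  cases m with
  | true => simpa [start] using p_add ha (Primrec.const 1)
  | false => simpa [start] using Primrec.const p0

lemma pp_Legal (m : Bool) (p0 : ℕ) {a : α → ℕ} {D : α → List ℕ × ℕ × ℕ} (ha : Primrec a)
    (hD : Primrec D) : PrimrecPred fun x => Legal m p0 (a x) (D x) := by
  unfold Legal
  have hl : Primrec fun x => (D x).1 := Primrec.fst.comp hD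
  have hs : Primrec fun x => (D x).2.2 := Primrec.snd.comp (Primrec.snd.comp hD)
  have hst := p_start m p0 ha
  refine (pp_imp (pp_const _) (pp_eq (Primrec.list_length.comp hl)
    (p_add ha (Primrec.const 1)))).and ?_
  refine (pp_Leg hs hst hl).and ?_
  refine PrimrecPred.and ?_ (pp_bt hs ha)
  refine pp_forall (R := fun x i => bt (D x).2.2 i →
    i < 2 * KK (En (start m p0 (a x)) (D x).1)) ?_ hs
  refine pp_imp (pp_bt (hs.comp Primrec.snd) Primrec.fst) (pp_lt Primrec.fst ?_)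
  exact p_mul (Primrec.const 2) (p_KK.comp (p_En (hst.comp Primrec.snd) (hl.comp Primrec.snd)))

lemma pp_Out (m : Bool) {s e t u : α → ℕ} (hs : Primrec s) (he : Primrec e) (ht : Primrec t)
    (hu : Primrec u) : PrimrecPred fun x => Out m (s x) (e x) (t x) (bt (u x)) := by
  unfold Out
  refine PrimrecPred.or ?_ ((pp_NB hs hu he (p_add he ht)).or
    (((pp_const _).and (pp_VV hs hu he (p_add he ht))).or ((pp_const _).and ?_)))
  · refine pp_exists (R := fun x i => ¬ bt (s x) i ∧ bt (u x) i) ?_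
      (p_mul (Primrec.const 2) (p_KK.comp he))
    exact (pp_bt (hs.comp Primrec.snd) Primrec.fst).not.and
      (pp_bt (hu.comp Primrec.snd) Primrec.fst)
  · refine pp_exists (R := fun x t' => VV (bt (s x)) (bt (u x)) (e x) (e x + t')) ?_ ht
    exact pp_VV (hs.comp Primrec.snd) (hu.comp Primrec.snd) (he.comp Primrec.snd)
      (p_add (he.comp Primrec.snd) Primrec.fst)

end Gen3

/-- total decoding of codes -/
def Dc (c : ℕ) : List ℕ × ℕ × ℕ := (Encodable.decode (α := List ℕ × ℕ × ℕ) c).getD ([], 0, 0)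

lemma Dc_encode (D : List ℕ × ℕ × ℕ) : Dc (Encodable.encode D) = D := by
  unfold Dc
  rw [Encodable.encodek]
  rfl

lemma p_Dc : Primrec Dc :=
  Primrec.option_getD.comp Primrec.decode (Primrec.const _)

/-- the enumeration operator reducing `G` to `N` -/
def W2 (m : Bool) (p0 : ℕ) (z : ℕ × ℕ) : Prop :=
  ((Nat.unpair z.1).2 = 0 ∧ bt z.2 (Nat.unpair z.1).1) ∨
  ((Nat.unpair z.1).2 ≠ 0 ∧
    (Encodable.encode (Dc ((Nat.unpair z.1).2 - 1)) ≠ (Nat.unpair z.1).2 - 1 ∨
      ¬ Legal m p0 (Nat.unpair z.1).1 (Dc ((Nat.unpair z.1).2 - 1)) ∨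
      Out m (Dc ((Nat.unpair z.1).2 - 1)).2.2
        (En (start m p0 (Nat.unpair z.1).1) (Dc ((Nat.unpair z.1).2 - 1)).1)
        (Dc ((Nat.unpair z.1).2 - 1)).2.1 (bt z.2)))

/-- the enumeration operator reducing `N` to `G` -/
def W1 (z : ℕ × ℕ) : Prop := bt z.2 (Nat.pair z.1 0)

lemma pp_W1 : PrimrecPred W1 :=
  pp_bt Primrec.snd (Primrec₂.natPair.comp Primrec.fst (Primrec.const 0))

lemma pp_W2 (m : Bool) (p0 : ℕ) : PrimrecPred (W2 m p0) := by
  unfold W2
  have ha : Primrec fun z : ℕ × ℕ => (Nat.unpair z.1).1 :=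
    Primrec.fst.comp (Primrec.unpair.comp Primrec.fst)
  have hc : Primrec fun z : ℕ × ℕ => (Nat.unpair z.1).2 :=
    Primrec.snd.comp (Primrec.unpair.comp Primrec.fst)
  have hc1 : Primrec fun z : ℕ × ℕ => (Nat.unpair z.1).2 - 1 :=
    Primrec.nat_sub.comp hc (Primrec.const 1)
  have hD : Primrec fun z : ℕ × ℕ => Dc ((Nat.unpair z.1).2 - 1) := p_Dc.comp hc1
  have hl : Primrec fun z : ℕ × ℕ => (Dc ((Nat.unpair z.1).2 - 1)).1 := Primrec.fst.comp hD
  have ht : Primrec fun z : ℕ × ℕ => (Dc ((Nat.unpair z.1).2 - 1)).2.1 :=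
    Primrec.fst.comp (Primrec.snd.comp hD)
  have hs : Primrec fun z : ℕ × ℕ => (Dc ((Nat.unpair z.1).2 - 1)).2.2 :=
    Primrec.snd.comp (Primrec.snd.comp hD)
  refine ((pp_eq hc (Primrec.const 0)).and (pp_bt Primrec.snd ha)).or
    ((pp_eq hc (Primrec.const 0)).not.and (PrimrecPred.or ?_ (PrimrecPred.or ?_ ?_)))
  · exact (pp_eq (Primrec.encode.comp hD) hc1).not
  · exact (pp_Legal m p0 ha hD).not
  · exact pp_Out m hs (p_En (p_start m p0 ha) hl) ht Primrec.snd

lemma re_W1 : REPred W1 := pp_W1.computablePred.to_re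

lemma re_W2 (m : Bool) (p0 : ℕ) : REPred (W2 m p0) := (pp_W2 m p0).computablePred.to_re

end Pool.Agent.MP_64ff70_lc
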